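import Pool.Agent.BEB.Stmts

/-!
# Squad BEB, row COF: cut off
-/

set_option autoImplicit false

namespace Pool.Agent.BEB.H94

open Set Filter Topology MeasureTheory
open scoped InnerProductSpace ENNReal
open Pool.Agent.BE01 Pool.Agent.BEB

noncomputable section

/-- bounded pointwise convergence implies convergence in `L²` -/
theorem lp_lim {A E : Type*} [MeasurableSpace A] [NormedAddCommGroup E] {μ : Measure A}
    [IsFiniteMeasure μ] (f : ℕ → A → E) (g : A → E) (hf : ∀ n, MemLp (f n) 2 μ)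
    (hg : MemLp g 2 μ) (M : ℝ) (hb : ∀ n, ∀ᵐ x ∂μ, ‖f n x - g x‖ ≤ M)
    (hl : ∀ᵐ x ∂μ, Tendsto (fun n => f n x) atTop (𝓝 (g x))) :
    Tendsto (fun n => (hf n).toLp (f n)) atTop (𝓝 (hg.toLp g)) := by
  rw [Lp.tendsto_Lp_iff_tendsto_eLpNorm'']
  have h5 : ∀ n, eLpNorm (f n - g) 2 μ = (∫⁻ x, ‖f n x - g x‖ₑ ^ (2 : ℝ) ∂μ) ^ (1 / (2 : ℝ)) := by
    intro n
    rw [eLpNorm_eq_lintegral_rpow_enorm_toReal (by simp) (by simp)]
    have : (2 : ℝ≥0∞).toReal = 2 := by simp
    rw [this]
    rfl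
  simp only [h5]
  have h6 : Tendsto (fun n => ∫⁻ x, ‖f n x - g x‖ₑ ^ (2 : ℝ) ∂μ) atTop (𝓝 (∫⁻ x, 0 ∂μ)) := by
    refine tendsto_lintegral_of_dominated_convergence' (fun x => ENNReal.ofReal M ^ (2 : ℝ))
      ?_ ?_ ?_ ?_
    · intro n
      exact (((hf n).1.sub hg.1).enorm).pow_const _
    · intro n
      filter_upwards [hb n] with x hx
      refine ENNReal.rpow_le_rpow ?_ (by norm_num)
      rw [← ofReal_norm_eq_enorm]
      exact ENNReal.ofReal_le_ofReal hx
    · rw [lintegral_const]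
      exact (ENNReal.mul_lt_top (ENNReal.rpow_lt_top_of_nonneg (by norm_num) ENNReal.ofReal_ne_top)
        (measure_lt_top μ univ)).ne
    · filter_upwards [hl] with x hx
      have h7 : Tendsto (fun n => f n x - g x) atTop (𝓝 0) := by
        have := hx.sub_const (g x)
        rwa [sub_self] at this
      have h8 : Tendsto (fun n => ‖f n x - g x‖ₑ) atTop (𝓝 0) := by
        have := (continuous_enorm.tendsto (0 : E)).comp h7
        rwa [enorm_zero] at this
      have h9 := (ENNReal.continuous_rpow_const (y := (2 : ℝ))).tendsto 0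
      rw [ENNReal.zero_rpow_of_pos (by norm_num)] at h9
      exact h9.comp h8
  rw [lintegral_zero] at h6
  have h9 := (ENNReal.continuous_rpow_const (y := (1 / 2 : ℝ))).tendsto 0
  rw [ENNReal.zero_rpow_of_pos (by norm_num)] at h9
  exact h9.comp h6

/-- the derivative of the smooth transition is bounded and supported in `[0, 1]` -/
theorem st_prop : ∃ K : ℝ, 0 < K ∧ (∀ x, |deriv Real.smoothTransition x| ≤ K) ∧
    ∀ x, 1 < x → deriv Real.smoothTransition x = 0 := by
  have hz1 : ∀ x, 1 < x → deriv Real.smoothTransition x = 0 := by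
    intro x h1
    have h2 : Real.smoothTransition =ᶠ[𝓝 x] fun _ => 1 := by
      filter_upwards [Ioi_mem_nhds h1] with y hy
      exact Real.smoothTransition.one_of_one_le (le_of_lt hy)
    rw [h2.deriv_eq, deriv_const]
  have hz0 : ∀ x, x < 0 → deriv Real.smoothTransition x = 0 := by
    intro x h0
    have h2 : Real.smoothTransition =ᶠ[𝓝 x] fun _ => 0 := by
      filter_upwards [Iio_mem_nhds h0] with y hy
      exact Real.smoothTransition.zero_of_nonpos (le_of_lt hy)
    rw [h2.deriv_eq, deriv_const]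
  have hc : Continuous (deriv Real.smoothTransition) :=
    (Real.smoothTransition.contDiff (n := 1)).continuous_deriv (by norm_num)
  obtain ⟨c, hc⟩ := (isCompact_Icc (a := (0 : ℝ)) (b := 1)).exists_bound_of_continuousOn
    hc.continuousOn
  refine ⟨|c| + 1, by positivity, fun x => ?_, hz1⟩
  rcases lt_or_ge x 0 with h | h
  · rw [hz0 x h, abs_zero]
    positivity
  rcases lt_or_ge 1 x with h' | h'
  · rw [hz1 x h', abs_zero]
    positivity
  · have := hc x ⟨h, h'⟩
    rw [Real.norm_eq_abs] at this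
    exact this.trans ((le_abs_self c).trans (by linarith))

/-- the cut off in one variable -/
def ph (n : ℕ) (t : ℝ) : ℝ := Real.smoothTransition (((n : ℝ) + 1) * t - 1)

theorem ph_smooth (n : ℕ) : ContDiff ℝ ((⊤ : ℕ∞) : WithTop ℕ∞) (ph n) := by
  unfold ph
  exact (Real.smoothTransition.contDiff (n := ⊤)).comp
    ((contDiff_const.mul contDiff_id).sub contDiff_const)

theorem ph_nonneg (n : ℕ) (t : ℝ) : 0 ≤ ph n t := Real.smoothTransition.nonneg _

theorem ph_le_one (n : ℕ) (t : ℝ) : ph n t ≤ 1 := Real.smoothTransition.le_one _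

theorem ph_zero (n : ℕ) (t : ℝ) (h : ((n : ℝ) + 1) * t ≤ 1) : ph n t = 0 :=
  Real.smoothTransition.zero_of_nonpos (by linarith)

theorem ph_one (n : ℕ) (t : ℝ) (h : 2 ≤ ((n : ℝ) + 1) * t) : ph n t = 1 :=
  Real.smoothTransition.one_of_one_le (by linarith)

theorem ph_deriv (n : ℕ) (t : ℝ) :
    HasDerivAt (ph n) (deriv Real.smoothTransition (((n : ℝ) + 1) * t - 1) * ((n : ℝ) + 1)) t := by
  have h1 : HasDerivAt (fun s : ℝ => ((n : ℝ) + 1) * s - 1) (((n : ℝ) + 1) * 1) t :=
    ((hasDerivAt_id t).const_mul _).sub_const 1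
  have h2 : HasDerivAt Real.smoothTransition
      (deriv Real.smoothTransition (((n : ℝ) + 1) * t - 1)) (((n : ℝ) + 1) * t - 1) :=
    ((Real.smoothTransition.contDiff (n := 1)).differentiable (by norm_num)
      (((n : ℝ) + 1) * t - 1)).hasDerivAt
  have h3 := h2.comp t h1
  rw [mul_one] at h3
  exact h3

theorem ph_bd : ∃ K : ℝ, 0 < K ∧ ∀ (n : ℕ) (t : ℝ), 0 < t → t * |deriv (ph n) t| ≤ K := by
  obtain ⟨K, hK, hb, hz⟩ := st_prop
  refine ⟨2 * K, by positivity, fun n t ht => ?_⟩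
  have hn : (0 : ℝ) < (n : ℝ) + 1 := by positivity
  rw [(ph_deriv n t).deriv]
  rcases lt_or_ge 1 (((n : ℝ) + 1) * t - 1) with h | h
  · rw [hz _ h, zero_mul, abs_zero, mul_zero]
    positivity
  · rw [abs_mul, abs_of_pos hn]
    have h1 : t * (|deriv Real.smoothTransition (((n : ℝ) + 1) * t - 1)| * ((n : ℝ) + 1)) =
        (((n : ℝ) + 1) * t) * |deriv Real.smoothTransition (((n : ℝ) + 1) * t - 1)| := by ring
    rw [h1]
    exact mul_le_mul (by linarith) (hb _) (abs_nonneg _) (by norm_num)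

/-- the distance to the sphere -/
def sq (R : ℝ) (x : En 3) : ℝ := R ^ 2 - ‖x‖ ^ 2

/-- the coordinate `x₂` -/
def co : En 3 →L[ℝ] ℝ := EuclideanSpace.proj (2 : Fin 3)

theorem co_apply (x : En 3) : co x = x 2 := rfl

theorem co_norm (x : En 3) : |x 2| ≤ ‖x‖ := by
  have := EuclideanSpace.norm_eq x
  rw [this]
  refine Real.abs_le_sqrt ?_
  have h1 := Finset.single_le_sum (f := fun i => ‖x i‖ ^ 2) (fun i _ => by positivity)
    (Finset.mem_univ (2 : Fin 3))
  rw [Real.norm_eq_abs, sq_abs] at h1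
  exact h1

theorem co_norm' : ‖co‖ ≤ 1 := by
  refine ContinuousLinearMap.opNorm_le_bound _ zero_le_one fun x => ?_
  rw [one_mul, Real.norm_eq_abs]
  exact co_norm x

theorem isOpen_HB (R : ℝ) : IsOpen (HB R) := by
  have h1 : HB R = {x : En 3 | ‖x‖ < R} ∩ {x : En 3 | 0 < co x} := rfl
  rw [h1]
  exact (isOpen_lt continuous_norm continuous_const).inter
    (isOpen_lt continuous_const co.continuous)

theorem HB_sub (R : ℝ) : HB R ⊆ Metric.closedBall (0 : En 3) R := by
  intro x hx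
  rw [mem_closedBall_zero_iff]
  exact hx.1.le

instance fin_HB (R : ℝ) : IsFiniteMeasure (mu (HB R)) := by
  constructor
  unfold mu
  rw [Measure.restrict_apply_univ]
  exact (measure_mono (HB_sub R)).trans_lt measure_closedBall_lt_top

theorem sq_smooth (R : ℝ) : ContDiff ℝ ((⊤ : ℕ∞) : WithTop ℕ∞) (sq R) := by
  unfold sq
  exact contDiff_const.sub (contDiff_norm_sq ℝ)

theorem sq_deriv (R : ℝ) (x : En 3) : HasFDerivAt (sq R) (-(2 • (innerSL ℝ) x)) x := by
  have h1 := (hasStrictFDerivAt_norm_sq x).hasFDerivAt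
  have h2 := h1.const_sub (R ^ 2)
  exact h2

/-- the cut off -/
def et (R : ℝ) (n : ℕ) (x : En 3) : ℝ := ph n (sq R x) * ph n (x 2)

theorem et_smooth (R : ℝ) (n : ℕ) : ContDiff ℝ ((⊤ : ℕ∞) : WithTop ℕ∞) (et R n) := by
  unfold et
  exact ((ph_smooth n).comp (sq_smooth R)).mul ((ph_smooth n).comp co.contDiff)

theorem et_nonneg (R : ℝ) (n : ℕ) (x : En 3) : 0 ≤ et R n x :=
  mul_nonneg (ph_nonneg _ _) (ph_nonneg _ _)

theorem et_le_one (R : ℝ) (n : ℕ) (x : En 3) : et R n x ≤ 1 :=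
  mul_le_one₀ (ph_le_one _ _) (ph_nonneg _ _) (ph_le_one _ _)

theorem et_fderiv (R : ℝ) (n : ℕ) (x : En 3) : ‖fderiv ℝ (et R n) x‖ ≤
    |deriv (ph n) (sq R x)| * (2 * ‖x‖) + |deriv (ph n) (x 2)| := by
  have h1 : HasFDerivAt (fun y => ph n (sq R y))
      (deriv (ph n) (sq R x) • (-(2 • (innerSL ℝ) x) : En 3 →L[ℝ] ℝ)) x :=
    HasDerivAt.comp_hasFDerivAt (h₂ := ph n) x
      ((ph_smooth n).differentiable (by simp) (sq R x)).hasDerivAt (sq_deriv R x)
  have h2 : HasFDerivAt (fun y : En 3 => ph n (co y)) (deriv (ph n) (x 2) • co) x :=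
    HasDerivAt.comp_hasFDerivAt (h₂ := ph n) x
      ((ph_smooth n).differentiable (by simp) (co x)).hasDerivAt co.hasFDerivAt
  have h3 : HasFDerivAt (et R n) (ph n (sq R x) • (deriv (ph n) (x 2) • co) +
      ph n (co x) • (deriv (ph n) (sq R x) • (-(2 • (innerSL ℝ) x) : En 3 →L[ℝ] ℝ))) x := h1.mul h2
  rw [h3.fderiv]
  refine (norm_add_le _ _).trans ?_
  rw [norm_smul, norm_smul, norm_smul, norm_smul, norm_neg, add_comm]
  have a1 : ‖ph n (co x)‖ ≤ 1 := by
    rw [Real.norm_eq_abs, abs_of_nonneg (ph_nonneg _ _)]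
    exact ph_le_one _ _
  have a2 : ‖ph n (sq R x)‖ ≤ 1 := by
    rw [Real.norm_eq_abs, abs_of_nonneg (ph_nonneg _ _)]
    exact ph_le_one _ _
  have a3 : ‖2 • (innerSL ℝ) x‖ ≤ 2 * ‖x‖ := by
    rw [two_smul]
    refine (norm_add_le _ _).trans ?_
    rw [innerSL_apply_norm]
    linarith
  refine add_le_add ?_ ?_
  · rw [Real.norm_eq_abs (deriv _ _)]
    calc ‖ph n (co x)‖ * (|deriv (ph n) (sq R x)| * ‖2 • (innerSL ℝ) x‖)
        ≤ 1 * (|deriv (ph n) (sq R x)| * (2 * ‖x‖)) :=
          mul_le_mul a1 (mul_le_mul_of_nonneg_left a3 (abs_nonneg _)) (by positivity) zero_le_one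
      _ = _ := one_mul _
  · rw [Real.norm_eq_abs (deriv _ _)]
    calc ‖ph n (sq R x)‖ * (|deriv (ph n) (x 2)| * ‖co‖)
        ≤ 1 * (|deriv (ph n) (x 2)| * 1) :=
          mul_le_mul a2 (mul_le_mul_of_nonneg_left co_norm' (abs_nonneg _)) (by positivity) zero_le_one
      _ = _ := by ring

theorem et_ev (R : ℝ) {x : En 3} (hR : 0 < R) (hx : x ∈ HB R) :
    ∀ᶠ n in atTop, et R n =ᶠ[𝓝 x] fun _ => 1 := by
  have hs : 0 < sq R x := by
    unfold sq
    have h1 : ‖x‖ ^ 2 < R ^ 2 := pow_lt_pow_left₀ hx.1 (norm_nonneg _) (by norm_num)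
    linarith
  have hc : 0 < co x := hx.2
  have t1 : Tendsto (fun n : ℕ => ((n : ℝ) + 1) * (sq R x / 2)) atTop atTop :=
    (tendsto_natCast_atTop_atTop.atTop_add tendsto_const_nhds).atTop_mul_const (by linarith)
  have t2 : Tendsto (fun n : ℕ => ((n : ℝ) + 1) * (co x / 2)) atTop atTop :=
    (tendsto_natCast_atTop_atTop.atTop_add tendsto_const_nhds).atTop_mul_const (by linarith)
  filter_upwards [t1.eventually_ge_atTop 2, t2.eventually_ge_atTop 2] with n h1 h2
  have e1 : ∀ᶠ y in 𝓝 x, sq R x / 2 < sq R y :=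
    (sq_smooth R).continuous.continuousAt.eventually (lt_mem_nhds (by linarith))
  have e2 : ∀ᶠ y in 𝓝 x, co x / 2 < co y :=
    co.continuous.continuousAt.eventually (lt_mem_nhds (by linarith))
  filter_upwards [e1, e2] with y g1 g2
  have hn : (0 : ℝ) < (n : ℝ) + 1 := by positivity
  show ph n (sq R y) * ph n (co y) = 1
  rw [ph_one n _ (h1.trans (mul_le_mul_of_nonneg_left g1.le hn.le)),
    ph_one n _ (h2.trans (mul_le_mul_of_nonneg_left g2.le hn.le)), one_mul]

/-- the compact set which contains the support of the cut off -/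
def KK (R : ℝ) (n : ℕ) : Set (En 3) := {x | 1 ≤ ((n : ℝ) + 1) * sq R x ∧ 1 ≤ ((n : ℝ) + 1) * co x}

theorem KK_closed (R : ℝ) (n : ℕ) : IsClosed (KK R n) :=
  (isClosed_le continuous_const (continuous_const.mul (sq_smooth R).continuous)).inter
    (isClosed_le continuous_const (continuous_const.mul co.continuous))

theorem KK_sub (R : ℝ) (n : ℕ) (hR : 0 < R) : KK R n ⊆ HB R := by
  intro x hx
  have hn : (0 : ℝ) < (n : ℝ) + 1 := by positivity
  have h1 : 0 < sq R x := by
    by_contra hc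
    have := mul_nonpos_of_nonneg_of_nonpos hn.le (not_lt.1 hc)
    linarith [hx.1]
  have h2 : 0 < co x := by
    by_contra hc
    have := mul_nonpos_of_nonneg_of_nonpos hn.le (not_lt.1 hc)
    linarith [hx.2]
  refine ⟨?_, h2⟩
  unfold sq at h1
  exact lt_of_pow_lt_pow_left₀ 2 hR.le (by linarith)

theorem KK_compact (R : ℝ) (n : ℕ) (hR : 0 < R) : IsCompact (KK R n) :=
  (isCompact_closedBall (0 : En 3) R).of_isClosed_subset (KK_closed R n)
    ((KK_sub R n hR).trans (HB_sub R))

theorem et_zero (R : ℝ) (n : ℕ) (x : En 3) (hx : x ∉ KK R n) : et R n x = 0 := by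
  unfold KK at hx
  rw [Set.mem_ofPred_eq, not_and_or, not_le, not_le] at hx
  show ph n (sq R x) * ph n (co x) = 0
  rcases hx with h | h
  · rw [ph_zero n _ h.le, zero_mul]
  · rw [ph_zero n _ h.le, mul_zero]

theorem tst (R : ℝ) (hR : 0 < R) (ψ : En 3 → ℝ) (hψ : ContDiff ℝ ((⊤ : ℕ∞) : WithTop ℕ∞) ψ) (n : ℕ) :
    Tst (HB R) (fun x => et R n x * ψ x) := by
  have h0 : ∀ x, x ∉ KK R n → et R n x * ψ x = 0 := fun x hx => by rw [et_zero R n x hx, zero_mul]
  refine ⟨(et_smooth R n).mul hψ, HasCompactSupport.intro (KK_compact R n hR) h0, ?_⟩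
  refine (closure_minimal ?_ (KK_closed R n)).trans (KK_sub R n hR)
  intro x hx
  by_contra hc
  exact hx (h0 x hc)

theorem grad_norm (F : En 3 → ℝ) (x : En 3) : ‖gradient F x‖ = ‖fderiv ℝ F x‖ := by
  unfold gradient
  exact LinearIsometryEquiv.norm_map _ _

theorem grad_cont (F : En 3 → ℝ) (hF : ContDiff ℝ ((⊤ : ℕ∞) : WithTop ℕ∞) F) :
    Continuous (gradient F) := by
  unfold gradient
  exact (LinearIsometryEquiv.continuous _).comp (hF.continuous_fderiv (by simp))

theorem cof : CofStmt := by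
  intro R C ψ hR hψ hbd
  obtain ⟨K, hK, hKb⟩ := ph_bd
  obtain ⟨B1, hB1⟩ := (isCompact_closedBall (0 : En 3) R).exists_bound_of_continuousOn
    hψ.continuous.continuousOn
  obtain ⟨B2, hB2⟩ := (isCompact_closedBall (0 : En 3) R).exists_bound_of_continuousOn
    (grad_cont ψ hψ).continuousOn
  have hae : ∀ᵐ x ∂(mu (HB R)), x ∈ HB R := ae_restrict_mem (isOpen_HB R).measurableSet
  have hB10 : 0 ≤ B1 := (norm_nonneg _).trans (hB1 0 (by
    rw [mem_closedBall_zero_iff, norm_zero]; exact hR.le))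
  have hB20 : 0 ≤ B2 := (norm_nonneg _).trans (hB2 0 (by
    rw [mem_closedBall_zero_iff, norm_zero]; exact hR.le))
  -- the difference of the values
  have d1 : ∀ n x, x ∈ HB R → ‖et R n x * ψ x - ψ x‖ ≤ B1 := by
    intro n x hx
    have h1 : et R n x * ψ x - ψ x = (et R n x - 1) * ψ x := by ring
    rw [h1, norm_mul]
    have h2 : ‖et R n x - 1‖ ≤ 1 := by
      rw [Real.norm_eq_abs, abs_le]
      constructor <;> linarith [et_nonneg R n x, et_le_one R n x]
    calc ‖et R n x - 1‖ * ‖ψ x‖ ≤ 1 * B1 :=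
          mul_le_mul h2 (hB1 x (HB_sub R hx)) (norm_nonneg _) zero_le_one
      _ = B1 := one_mul _
  -- the difference of the gradients
  have d2 : ∀ n x, x ∈ HB R → ‖gradient (fun y => et R n y * ψ y) x - gradient ψ x‖ ≤
      |C| * K * (2 * R) + |C| * K + B2 := by
    intro n x hx
    have e1 : gradient (fun y => et R n y * ψ y) x - gradient ψ x =
        (InnerProductSpace.toDual ℝ (En 3)).symm
          (fderiv ℝ (fun y => et R n y * ψ y) x - fderiv ℝ ψ x) := by
      unfold gradient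
      rw [map_sub]
    rw [e1, LinearIsometryEquiv.norm_map]
    have e2 : fderiv ℝ (fun y => et R n y * ψ y) x =
        et R n x • fderiv ℝ ψ x + ψ x • fderiv ℝ (et R n) x :=
      fderiv_mul ((et_smooth R n).differentiable (by simp) x) (hψ.differentiable (by simp) x)
    have e3 : et R n x • fderiv ℝ ψ x + ψ x • fderiv ℝ (et R n) x - fderiv ℝ ψ x =
        ψ x • fderiv ℝ (et R n) x + (et R n x - 1) • fderiv ℝ ψ x := by
      rw [sub_smul, one_smul]
      abel
    rw [e2, e3]
    refine (norm_add_le _ _).trans (add_le_add ?_ ?_)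
    · rw [norm_smul, Real.norm_eq_abs]
      have hs : 0 < sq R x := by
        unfold sq
        have h1 : ‖x‖ ^ 2 < R ^ 2 := pow_lt_pow_left₀ hx.1 (norm_nonneg _) (by norm_num)
        linarith
      have hc : 0 < x 2 := hx.2
      obtain ⟨b1, b2⟩ := hbd x hx
      have b1' : |ψ x| ≤ |C| * sq R x :=
        b1.trans (mul_le_mul_of_nonneg_right (le_abs_self C) hs.le)
      have b2' : |ψ x| ≤ |C| * x 2 :=
        b2.trans (mul_le_mul_of_nonneg_right (le_abs_self C) hc.le)
      have c1 := hKb n (sq R x) hs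
      have c2 := hKb n (x 2) hc
      have n1 : 0 ≤ |deriv (ph n) (sq R x)| := abs_nonneg _
      have n2 : 0 ≤ |deriv (ph n) (x 2)| := abs_nonneg _
      have n3 : 0 ≤ |C| := abs_nonneg _
      have m1 : |ψ x| * (|deriv (ph n) (sq R x)| * (2 * ‖x‖)) ≤ |C| * K * (2 * R) := by
        have q1 : |ψ x| * |deriv (ph n) (sq R x)| ≤ |C| * K := by
          calc |ψ x| * |deriv (ph n) (sq R x)|
              ≤ (|C| * sq R x) * |deriv (ph n) (sq R x)| := mul_le_mul_of_nonneg_right b1' n1
            _ = |C| * (sq R x * |deriv (ph n) (sq R x)|) := by ring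
            _ ≤ |C| * K := mul_le_mul_of_nonneg_left c1 n3
        calc |ψ x| * (|deriv (ph n) (sq R x)| * (2 * ‖x‖))
            = (|ψ x| * |deriv (ph n) (sq R x)|) * (2 * ‖x‖) := by ring
          _ ≤ (|C| * K) * (2 * R) :=
              mul_le_mul q1 (by linarith [hx.1]) (by positivity) (by positivity)
      have m2 : |ψ x| * |deriv (ph n) (x 2)| ≤ |C| * K := by
        calc |ψ x| * |deriv (ph n) (x 2)|
            ≤ (|C| * x 2) * |deriv (ph n) (x 2)| := mul_le_mul_of_nonneg_right b2' n2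
          _ = |C| * (x 2 * |deriv (ph n) (x 2)|) := by ring
          _ ≤ |C| * K := mul_le_mul_of_nonneg_left c2 n3
      calc |ψ x| * ‖fderiv ℝ (et R n) x‖
          ≤ |ψ x| * (|deriv (ph n) (sq R x)| * (2 * ‖x‖) + |deriv (ph n) (x 2)|) :=
            mul_le_mul_of_nonneg_left (et_fderiv R n x) (abs_nonneg _)
        _ = |ψ x| * (|deriv (ph n) (sq R x)| * (2 * ‖x‖)) + |ψ x| * |deriv (ph n) (x 2)| := by ring
        _ ≤ |C| * K * (2 * R) + |C| * K := add_le_add m1 m2
    · rw [norm_smul, ← grad_norm]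
      have h2 : ‖et R n x - 1‖ ≤ 1 := by
        rw [Real.norm_eq_abs, abs_le]
        constructor <;> linarith [et_nonneg R n x, et_le_one R n x]
      calc ‖et R n x - 1‖ * ‖gradient ψ x‖ ≤ 1 * B2 :=
            mul_le_mul h2 (hB2 x (HB_sub R hx)) (norm_nonneg _) zero_le_one
        _ = B2 := one_mul _
  -- membership
  have m1 : MemLp ψ 2 (mu (HB R)) := by
    refine MemLp.of_bound hψ.continuous.aestronglyMeasurable B1 ?_
    filter_upwards [hae] with x hx
    exact hB1 x (HB_sub R hx)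
  have m2 : MemLp (gradient ψ) 2 (mu (HB R)) := by
    refine MemLp.of_bound (grad_cont ψ hψ).aestronglyMeasurable B2 ?_
    filter_upwards [hae] with x hx
    exact hB2 x (HB_sub R hx)
  have m3 : ∀ n, MemLp (fun x => et R n x * ψ x) 2 (mu (HB R)) := by
    intro n
    refine MemLp.of_bound ((et_smooth R n).mul hψ).continuous.aestronglyMeasurable (B1 + B1) ?_
    filter_upwards [hae] with x hx
    have h1 := norm_add_le (et R n x * ψ x - ψ x) (ψ x)
    rw [sub_add_cancel] at h1
    exact h1.trans (add_le_add (d1 n x hx) (hB1 x (HB_sub R hx)))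
  have m4 : ∀ n, MemLp (gradient (fun x => et R n x * ψ x)) 2 (mu (HB R)) := by
    intro n
    refine MemLp.of_bound (grad_cont _ ((et_smooth R n).mul hψ)).aestronglyMeasurable
      ((|C| * K * (2 * R) + |C| * K + B2) + B2) ?_
    filter_upwards [hae] with x hx
    have h1 := norm_add_le (gradient (fun x => et R n x * ψ x) x - gradient ψ x) (gradient ψ x)
    rw [sub_add_cancel] at h1
    exact h1.trans (add_le_add (d2 n x hx) (hB2 x (HB_sub R hx)))
  -- limits
  have l1 := lp_lim (μ := mu (HB R)) (fun n x => et R n x * ψ x) ψ m3 m1 B1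
    (fun n => by filter_upwards [hae] with x hx using d1 n x hx)
    (by
      filter_upwards [hae] with x hx
      refine tendsto_const_nhds.congr' ?_
      filter_upwards [et_ev R hR hx] with n hn
      rw [hn.eq_of_nhds, one_mul])
  have l2 := lp_lim (μ := mu (HB R)) (fun n => gradient (fun x => et R n x * ψ x)) (gradient ψ) m4 m2
    (|C| * K * (2 * R) + |C| * K + B2)
    (fun n => by filter_upwards [hae] with x hx using d2 n x hx)
    (by
      filter_upwards [hae] with x hx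
      refine tendsto_const_nhds.congr' ?_
      filter_upwards [et_ev R hR hx] with n hn
      have h1 : (fun y => et R n y * ψ y) =ᶠ[𝓝 x] ψ := by
        filter_upwards [hn] with y hy
        rw [hy, one_mul]
      exact h1.gradient.eq_of_nhds.symm)
  refine ⟨m1.toLp ψ, m2.toLp (gradient ψ), ?_, m1.coeFn_toLp, m2.coeFn_toLp⟩
  refine mem_closure_of_tendsto (l1.prodMk_nhds l2) (Eventually.of_forall fun n => ?_)
  exact ⟨fun x => et R n x * ψ x, tst R hR ψ hψ n, (m3 n).coeFn_toLp, (m4 n).coeFn_toLp⟩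

end

end Pool.Agent.BEB.H94
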